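import Pool.Agent.RevCard.Final

/-!
# MP_63fc39_lc: the exceptional set of a strong limit cardinal, and the least failure of Q1

`Exc χ lam` is the set of the regular `κ < χ` such that `κ⁺` is not a `lam`-revision cardinal
(`Pool/Agent/RevCard/Basic.lean`). Q1 asks whether it is always finite.
-/

set_option autoImplicit false

namespace Pool.Agent.Results.MP_63fc39_lc.LeastFailure

open Cardinal Set Order Pool.Agent.RevCard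
open scoped Ordinal

universe u

theorem result (χ : Cardinal.{u}) (hχ : χ.IsStrongLimit) (_h0 : ℵ₀ < χ) :
    -- exact description of the exceptions
    (∀ lam κ : Cardinal.{u}, χ ≤ lam → (κ ∈ Exc χ lam ↔ κ.IsRegular ∧ κ < χ ∧
      ∃ μ, χ ≤ μ ∧ μ ≤ lam ∧ μ.ord.cof = κ ∧ lam < cov μ (succ κ) (succ κ) κ)) ∧
    (∀ ρ lam : Cardinal.{u}, χ ≤ ρ → ρ ≤ lam →
      Exc χ lam ⊆ Exc χ ρ ∪ {κ | ∃ μ, ρ < μ ∧ μ ≤ lam ∧ μ.ord.cof = κ}) ∧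
    -- cases of Q1
    (∀ β α : Ordinal.{u}, χ ≤ ℵ_ β → α < ω_ ω → (Exc χ (ℵ_ β)).Finite →
      (Exc χ (ℵ_ (β + α))).Finite) ∧
    (∀ γ α : Ordinal.{u}, χ = ℵ_ γ → α < ω_ ω → (Exc χ (ℵ_ (γ + α))).Finite) ∧
    (∀ lam : Cardinal.{u}, χ ≤ lam → lam.IsStrongLimit → Exc χ lam ⊆ {lam.ord.cof}) ∧
    (∀ ρ : Cardinal.{u}, χ ≤ ρ → (∀ κ < χ, ρ ^ κ ≤ ρ) → Exc χ ρ = ∅) ∧
    -- limits
    (∀ (lam : Cardinal.{u}) (S : Set Cardinal.{u}), χ < lam →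
      (∀ ρ < lam, ∃ ρ', ρ ≤ ρ' ∧ ρ' < lam ∧ χ ≤ ρ' ∧ Exc χ ρ' ⊆ S) →
      Exc χ lam ⊆ S ∪ {lam.ord.cof}) ∧
    (∀ lam : Cardinal.{u}, χ < lam → ℵ₀ < lam.ord.cof →
      (∀ ρ < lam, ∃ ρ', ρ ≤ ρ' ∧ ρ' < lam ∧ χ ≤ ρ' ∧ (Exc χ ρ').Finite) →
      (Exc χ lam).Finite) ∧
    -- the least failure
    (∀ lam : Cardinal.{u}, χ ≤ lam → (Exc χ lam).Infinite →
      (∀ ρ, χ ≤ ρ → ρ < lam → (Exc χ ρ).Finite) →
      lam.ord.cof = ℵ₀ ∧ ∃ γ β : Ordinal.{u}, χ = ℵ_ γ ∧ 0 < β ∧ lam = ℵ_ (γ + ω_ ω * β)) ∧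
    -- an equivalent form of the failure of Q1 for `χ`
    ((∃ lam : Cardinal.{u}, χ ≤ lam ∧ (Exc χ lam).Infinite) ↔
      ∃ κ μ : ℕ → Cardinal.{u}, StrictMono κ ∧ StrictMono μ ∧ ∀ n, (κ n).IsRegular ∧ κ n < χ ∧
        χ ≤ μ n ∧ (μ n).ord.cof = κ n ∧
        (⨆ m, μ m) < cov (μ n) (succ (κ n)) (succ (κ n)) (κ n)) :=
  final χ hχ

end Pool.Agent.Results.MP_63fc39_lc.LeastFailure
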